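import Pool.Agent.Helper20.MH.Goals
import Pool.Agent.Helper56.MH.OKM
import Pool.Agent.Helper75.OH.STEP
import Pool.Agent.Helper65.OH.GEO

/-!
# Packet MH-STM: one step of a machine with several heads, on words and on numbers
-/

namespace Pool.Agent.Helper83.MH

open Pool.Agent.Helper65.LinSpace Pool.Agent.Helper78.Mpc Pool.Agent.Helper28.Ram Finset
open Pool.Agent.Helper65.OH (mv letW)
open Pool.Agent.Helper20.MH
open Pool.Agent.Helper75.OH (capN_long capN_Good length_letW eq01_codeO)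
open Pool.Agent.Helper11.Ram (num_eq_bval)
open Pool.Agent.Helper56.MH (cq_lt cq_mk)

theorem lw_codeO (o : Option Bool) : Prm.lw (codeO o) = num (letW o) := by
  rcases o with _ | _ | _ <;> rfl

theorem pl_mi (z : List Bool) (k : ℕ) :
    ((Prm.pl (num z) k : ℕ) : ℤ) - ((Prm.mi (num z) k : ℕ) : ℤ) = mv z k := by
  unfold Prm.pl Prm.mi mv
  rw [letN_num, letN_num, eq01_codeO, eq01_codeO]
  push_cast
  rfl

theorem nrec_foldl (g : ℕ) (F : ℕ → ℕ → ℕ) (n : ℕ) :
    nrec g F n = (List.range n).foldl (fun r i => F i r) g := by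
  induction n with
  | zero => rfl
  | succ n ih => rw [nrec_succ, ih, List.range_succ, List.foldl_append]; rfl

theorem range_eq (K : ℕ) : List.range K = (List.finRange K).map fun i : Fin K => (i : ℕ) :=
  (List.map_coe_finRange_eq_range (n := K)).symm

theorem nrec_fin (g : ℕ) (F : ℕ → ℕ → ℕ) (K : ℕ) :
    nrec g F K = (List.finRange K).foldl (fun r (i : Fin K) => F (i : ℕ) r) g := by
  rw [nrec_foldl, range_eq, List.foldl_map]

theorem length_flatMap_le {α : Type} (l : List α) (f : α → List Bool) {B : ℕ}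
    (h : ∀ a ∈ l, (f a).length ≤ B) : (l.flatMap f).length ≤ l.length * B := by
  induction l with
  | nil => simp
  | cons a l ih =>
    rw [List.flatMap_cons, List.length_append, List.length_cons]
    have h1 := h a (by simp)
    have h2 := ih fun b hb => h b (by simp [hb])
    calc (f a).length + (l.flatMap f).length ≤ B + l.length * B := Nat.add_le_add h1 h2
      _ = (l.length + 1) * B := by ring

theorem vec_fold {K : ℕ} (l : List (Fin K)) (g : ℕ → ℕ) (f : Fin K → List Bool)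
    (h : ∀ i : Fin K, g i = num (f i)) (u : List Bool) :
    l.foldl (fun r (i : Fin K) => catN r (sdN (g (i : ℕ)))) (num u) =
      num (u ++ l.flatMap fun i => sd (f i)) := by
  induction l generalizing u with
  | nil => simp
  | cons a l ih =>
    rw [List.foldl_cons, h a, sdN_num, catN_num, ih, List.flatMap_cons, List.append_assoc]

section

variable {D K : ℕ} {A : MultiHead D K} {eA eN eW c0 : ℕ} {w y : List Bool} {m : Prm}
  {C : Conf D K} {u : ℕ} {M : ℕ → ℕ}

theorem box (hG : GoodM m C u M) (i : Fin K) : InBox m.κ (C.h i) := by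
  intro k
  have h1 := hG.cq i k
  have h2 := cq_lt m u (i * D + k)
  have h3 : ((2 ^ m.κ : ℕ) : ℤ) = 2 ^ m.κ := by push_cast; rfl
  rw [← h1]
  refine ⟨by positivity, ?_⟩
  rw [← h3]
  exact_mod_cast h2

theorem cell_eq (hP : ParM A eA eN eW c0 w y m) (hG : GoodM m C u M) (i : Fin K) :
    m.cell u i = cz m (A.tape i) (C.h i) := by
  unfold Prm.cell cz
  rw [hP.h_tp i, hP.h_D]
  congr 2
  refine tab_congr fun k hk => ?_
  rw [dif_pos hk]
  have h1 := hG.cq i ⟨k, hk⟩
  have h2 : ((m.cq u (i * D + k) : ℕ) : ℤ) = C.h i ⟨k, hk⟩ + 2 ^ (m.κ - 1) := h1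
  omega

theorem rd_lt (hP : ParM A eA eN eW c0 w y m) (hG : GoodM m C u M) {i : ℕ} (hi : i < m.K) :
    M (m.cell u i) < 2 ^ (m.S + 1) := by
  have hi' : i < K := by rw [← hP.h_K]; exact hi
  have h1 : M (m.cell u ((⟨i, hi'⟩ : Fin K) : ℕ)) < 2 ^ (m.S + 1) := by
    rw [cell_eq hP hG, hG.mem _ _ (box hG _)]
    exact capN_lt _ _
  exact h1

theorem vi_eq (hP : ParM A eA eN eW c0 w y m) (hG : GoodM m C u M) (i : Fin K) :
    m.vi (m.sys.rd M u) i = capN m.S (num (A.rd C i)) := by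
  have hi : (i : ℕ) < m.K := by rw [hP.h_K]; exact i.2
  have h1 : m.vi (m.sys.rd M u) i = M (m.cell u i) :=
    dig_tab (q := 2 ^ (m.S + 1)) (m := m.K) (d := fun i => M (m.cell u i))
      (fun j hj => rd_lt hP hG hj) hi
  rw [h1, cell_eq hP hG, hG.mem _ _ (box hG _)]
  rfl

theorem adN_eq (hF : FnsM A m) (hG : GoodM m C u M) :
    m.adN u = if (A.addr C.q).length ≤ m.S then num (A.addr C.q) else 0 := by
  unfold Prm.adN
  rw [hG.wq]
  have h1 := hG.len
  have h2 : (2 * K + 2) * m.S = 2 * (K * m.S) + 2 * m.S := by ring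
  exact capN_Good hF.addr (by omega)

theorem adr_eq (hF : FnsM A m) (hG : GoodM m C u M) (h : (A.addr C.q).length ≤ m.S) :
    m.adr u = bval (A.addr C.q) := by
  unfold Prm.adr
  rw [adN_eq hF hG, if_pos h, log_num, num_eq_bval]
  omega

theorem vec_eq (hP : ParM A eA eN eW c0 w y m) (hG : GoodM m C u M)
    (h2 : ∀ i, (A.rd C i).length ≤ m.S) :
    m.vec (m.sys.rd M u) = num ((List.finRange K).flatMap fun i => sd (A.rd C i)) := by
  unfold Prm.vec
  rw [hP.h_K, nrec_fin]
  exact vec_fold (List.finRange K) (m.vi (m.sys.rd M u)) (fun i => A.rd C i)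
    (fun i => by rw [vi_eq hP hG, capN_num (h2 i)]) []

theorem inpN_eq (hP : ParM A eA eN eW c0 w y m) (hF : FnsM A m) (hG : GoodM m C u M)
    (h : (A.addr C.q).length ≤ m.S) (h2 : ∀ i, (A.rd C i).length ≤ m.S) :
    m.inpN u (m.sys.rd M u) = num (A.inp w y C.q (A.rd C)) := by
  unfold Prm.inpN MultiHead.inp
  rw [adr_eq hF hG h, hP.h_x, hP.h_y, letN_num, letN_num, lw_codeO, lw_codeO,
    vec_eq hP hG h2, hG.wq, sdN_num, catN_num, catN_num, catN_num]

theorem inp_len (hG : GoodM m C u M) (h2 : ∀ i, (A.rd C i).length ≤ m.S) :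
    (A.inp w y C.q (A.rd C)).length ≤ 2 * m.S + 5 + K * (2 * m.S + 1) := by
  unfold MultiHead.inp
  have h1 := hG.len
  have h3 : ((List.finRange K).flatMap fun i => sd (A.rd C i)).length ≤
      (List.finRange K).length * (2 * m.S + 1) :=
    length_flatMap_le _ _ fun i _ => by rw [length_sd]; have := h2 i; omega
  rw [List.length_finRange] at h3
  simp only [List.length_append, length_sd, length_letW]
  omega

theorem nu_eq (hP : ParM A eA eN eW c0 w y m) (hF : FnsM A m) (hG : GoodM m C u M)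
    (h : (A.addr C.q).length ≤ m.S) (h2 : ∀ i, (A.rd C i).length ≤ m.S) :
    m.nu u (m.sys.rd M u) =
      if (A.nx w y C).length ≤ m.S then num (A.nx w y C) else 0 := by
  unfold Prm.nu
  rw [inpN_eq hP hF hG h h2]
  refine capN_Good hF.next ((inp_len hG h2).trans ?_)
  have e1 : (2 * K + 2) * m.S = 2 * (K * m.S) + 2 * m.S := by ring
  have e2 : K * (2 * m.S + 1) = 2 * (K * m.S) + K := by ring
  omega

theorem nw_eq (hP : ParM A eA eN eW c0 w y m) (hF : FnsM A m) (hG : GoodM m C u M)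
    (h : (A.addr C.q).length ≤ m.S) (h2 : ∀ i, (A.rd C i).length ≤ m.S) (i : Fin K) :
    m.nw u (m.sys.rd M u) i = capN m.S (num (A.wr w y C i)) := by
  unfold Prm.nw
  rw [inpN_eq hP hF hG h h2, bitsN_eq, sdN_num, catN_num]
  have h3 : (sd (i : ℕ).bits ++ A.inp w y C.q (A.rd C)).length ≤
      (2 * K + 2) * m.S + 3 * K + 6 := by
    rw [List.length_append, length_sd]
    have h4 := inp_len (A := A) (w := w) (y := y) hG h2
    have h5 : (i : ℕ).bits.length ≤ (i : ℕ) := length_bits Nat.lt_two_pow_self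
    have h6 := i.2
    have e1 : (2 * K + 2) * m.S = 2 * (K * m.S) + 2 * m.S := by ring
    have e2 : K * (2 * m.S + 1) = 2 * (K * m.S) + K := by ring
    omega
  rw [capN_Good hF.write h3]
  unfold MultiHead.wr
  split_ifs with h7
  · rw [capN_num h7]
  · rw [capN_long h7]

theorem viol_iff (m : Prm) (q u : ℕ) : m.viol q u = 0 ↔ ∀ k < m.K * m.D,
    Prm.mi u k ≤ m.cq q k + Prm.pl u k ∧
      m.cq q k + Prm.pl u k - Prm.mi u k < 2 ^ m.κ := by
  unfold Prm.viol
  rw [Finset.sum_eq_zero_iff]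
  constructor
  · intro h k hk
    have := h k (Finset.mem_range.2 hk)
    unfold le01 lt01 at this
    split_ifs at this with h1 h2
    exact ⟨h1, h2⟩
  · intro h k hk
    obtain ⟨h1, h2⟩ := h k (Finset.mem_range.1 hk)
    unfold le01 lt01
    rw [if_pos h1, if_pos h2, mul_one, Nat.sub_self]

/-- What `bad = 0` says. -/
theorem bad_iff (hP : ParM A eA eN eW c0 w y m) (hF : FnsM A m) (hG : GoodM m C u M) :
    m.bad u (m.sys.rd M u) = 0 ↔ (A.addr C.q).length ≤ m.S ∧ (∀ i, (A.rd C i).length ≤ m.S) ∧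
      (A.nx w y C).length ≤ m.S ∧ m.viol u (m.nu u (m.sys.rd M u)) = 0 := by
  unfold Prm.bad
  constructor
  · intro h
    have ha : (A.addr C.q).length ≤ m.S := by
      by_contra hcon
      rw [adN_eq hF hG, if_neg hcon, eq01_of rfl] at h
      omega
    have hr : ∀ i, (A.rd C i).length ≤ m.S := by
      intro i
      by_contra hcon
      have h1 : ∑ i ∈ range m.K, eq01 (m.vi (m.sys.rd M u) i) 0 = 0 := by omega
      rw [Finset.sum_eq_zero_iff] at h1
      have h2 := h1 i (mem_range.2 (by rw [hP.h_K]; exact i.2))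
      rw [vi_eq hP hG, capN_long hcon, eq01_of rfl] at h2
      exact one_ne_zero h2
    refine ⟨ha, hr, ?_, by omega⟩
    by_contra hcon
    have h1 : m.nu u (m.sys.rd M u) = 0 := by rw [nu_eq hP hF hG ha hr, if_neg hcon]
    rw [h1, eq01_of rfl] at h
    omega
  · rintro ⟨ha, hr, hn, hv⟩
    have h1 : ∑ i ∈ range m.K, eq01 (m.vi (m.sys.rd M u) i) 0 = 0 := by
      refine Finset.sum_eq_zero fun i hi => ?_
      have hi' : i < K := by rw [← hP.h_K]; exact mem_range.1 hi
      have h2 := vi_eq hP hG ⟨i, hi'⟩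
      have h3 : m.vi (m.sys.rd M u) i = capN m.S (num (A.rd C ⟨i, hi'⟩)) := h2
      rw [h3, capN_num (hr _)]
      exact eq01_ne (num_pos _).ne'
    rw [h1, hv, adN_eq hF hG, if_pos ha, eq01_ne (num_pos _).ne', nu_eq hP hF hG ha hr,
      if_pos hn, eq01_ne (num_pos _).ne']

theorem cz_inj {i j : ℕ} {z z' : Fin D → ℤ} (hi : i < m.K + 1) (hj : j < m.K + 1)
    (hz : InBox m.κ z) (hz' : InBox m.κ z') (h : cz m i z = cz m j z') : i = j ∧ z = z' := by
  unfold cz at h
  set F := fun z : Fin D → ℤ => fun k => if h : k < D then (z ⟨k, h⟩ + 2 ^ (m.κ - 1)).toNat else 0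
    with hF
  have hb : ∀ z : Fin D → ℤ, InBox m.κ z → ∀ k < D, F z k < 2 ^ m.κ := by
    intro z hz k hk
    show (if h : k < D then (z ⟨k, h⟩ + 2 ^ (m.κ - 1)).toNat else 0) < _
    rw [dif_pos hk]
    obtain ⟨h1, h2⟩ := hz ⟨k, hk⟩
    have h3 : ((2 ^ m.κ : ℕ) : ℤ) = 2 ^ m.κ := by push_cast; rfl
    zify
    rw [Int.toNat_of_nonneg h1]
    exact h2
  have e1 : i = j := by
    have h1 := congrArg (· % (m.K + 1)) h
    simp only [Nat.add_mul_mod_self_left] at h1
    rwa [Nat.mod_eq_of_lt hi, Nat.mod_eq_of_lt hj] at h1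
  subst e1
  refine ⟨rfl, ?_⟩
  have h2 : tab (2 ^ m.κ) D (F z) = tab (2 ^ m.κ) D (F z') :=
    Nat.eq_of_mul_eq_mul_left (Nat.succ_pos _) (Nat.add_left_cancel h)
  have h3 := Pool.Agent.Helper65.OH.tab_inj (hb z hz) (hb z' hz') h2
  funext k
  have h4 := h3 k k.2
  have h5 : (z k + 2 ^ (m.κ - 1)).toNat = (z' k + 2 ^ (m.κ - 1)).toNat := by
    have e : ∀ z : Fin D → ℤ, F z k = (z k + 2 ^ (m.κ - 1)).toNat := fun z => dif_pos k.2
    rw [← e z, ← e z']
    exact h4
  have h6 := (hz k).1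
  have h7 := (hz' k).1
  omega

/-- The contents after a step. -/
theorem fold_mem (hP : ParM A eA eN eW c0 w y m) (hG : GoodM m C u M) (v : ℕ)
    (hv : ∀ i : Fin K, m.fW u v i = capN m.S (num (A.wr w y C i))) (τ : Fin K) (z : Fin D → ℤ)
    (hz : InBox m.κ z) (l : List (Fin K)) (M₀ : Fin K → (Fin D → ℤ) → List Bool) :
    l.foldl (fun r (i : Fin K) => ifz (eq01 (m.cell u (i : ℕ)) (cz m τ z)) r (m.fW u v (i : ℕ)))
      (capN m.S (num (M₀ τ z))) =
    capN m.S (num (l.foldl (fun M i =>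
      Function.update M (A.tape i) (Function.update (M (A.tape i)) (C.h i) (A.wr w y C i)))
        M₀ τ z)) := by
  induction l generalizing M₀ with
  | nil => rfl
  | cons i l ih =>
    rw [List.foldl_cons, List.foldl_cons, ← ih]
    congr 1
    rw [ifz_eq01]
    split_ifs with h
    · rw [cell_eq hP hG] at h
      have hK : ∀ j : Fin K, (j : ℕ) < m.K + 1 := fun j => by rw [hP.h_K]; have := j.2; omega
      obtain ⟨h1, h2⟩ := cz_inj (hK _) (hK _) (box hG i) hz h
      have h1' : A.tape i = τ := Fin.ext h1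
      subst h1'
      subst h2
      rw [Function.update_self, Function.update_self, hv i]
    · by_cases h1 : A.tape i = τ
      · have h2 : z ≠ C.h i := by
          rintro rfl
          apply h
          rw [cell_eq hP hG, h1]
        subst h1
        rw [Function.update_self, Function.update_of_ne h2]
      · rw [Function.update_of_ne (Ne.symm h1)]

/-- If `bad = 0` then the step is right. -/
theorem good_step (hP : ParM A eA eN eW c0 w y m) (hF : FnsM A m) (hG : GoodM m C u M)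
    (hacc : C.q.head? ≠ some true) (hb : m.bad u (m.sys.rd M u) = 0) :
    GoodM m (A.step w y C) (m.fN u (m.sys.rd M u)) fun z =>
      m.sys.wr u (m.sys.rd M u) z (M z) := by
  have hacc0 : accN (m.wq u) = 0 := by
    rw [hG.wq]
    have h1 : accN (num C.q) ≠ 1 := fun h => hacc ((accN_num _).1 h)
    have h2 := accN_le (num C.q)
    omega
  obtain ⟨ha, hr, hn, hviol⟩ := (bad_iff (w := w) (y := y) hP hF hG).1 hb
  have hnu : m.nu u (m.sys.rd M u) = num (A.nx w y C) := by
    rw [nu_eq hP hF hG ha hr, if_pos hn]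
  have hfN : m.fN u (m.sys.rd M u) = m.mk' (m.nu u (m.sys.rd M u)) fun k =>
      (m.cq u k + Prm.pl (m.nu u (m.sys.rd M u)) k -
        Prm.mi (m.nu u (m.sys.rd M u)) k) % 2 ^ m.κ := by
    unfold Prm.fN
    rw [hacc0, ifz_zero, hb, ifz_zero]
  have hnl : m.nu u (m.sys.rd M u) < 2 ^ (m.S + 1) := capN_lt _ _
  have hfW : ∀ i : Fin K, m.fW u (m.sys.rd M u) i = capN m.S (num (A.wr w y C i)) := by
    intro i
    unfold Prm.fW
    rw [hacc0, hb, ifz_zero, nw_eq hP hF hG ha hr]
  refine ⟨?_, hn, ?_, ?_⟩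
  · rw [hfN]
    unfold Prm.wq Prm.mk'
    rw [Nat.add_mul_mod_self_left, Nat.mod_eq_of_lt hnl, hnu]
    rfl
  · intro i k
    have hk : (i : ℕ) * D + k < m.K * m.D := by
      rw [hP.h_K, hP.h_D]
      calc (i : ℕ) * D + k < i * D + D := by have := k.2; omega
        _ = (i + 1) * D := by ring
        _ ≤ K * D := Nat.mul_le_mul_right _ i.2
    rw [hfN, cq_mk m hnl (fun _ _ => Nat.mod_lt _ (by positivity)) hk]
    obtain ⟨h9, h8⟩ := (viol_iff m u _).1 hviol _ hk
    rw [Nat.mod_eq_of_lt h8]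
    have h10 := hG.cq i k
    have h11 := pl_mi (A.nx w y C) (i * D + k)
    rw [← hnu] at h11
    show _ = C.h i k + mv (A.nx w y C) (i * D + k) + 2 ^ (m.κ - 1)
    rw [← h11]
    push_cast [Nat.cast_sub h9]
    rw [h10]
    ring
  · intro τ z hz
    show nrec (M (cz m τ z)) (fun i r => ifz (eq01 (m.cell u i) (cz m τ z)) r
      (m.fW u (m.sys.rd M u) i)) m.K = _
    rw [hP.h_K, nrec_fin, hG.mem τ z hz]
    exact fold_mem hP hG _ hfW τ z hz (List.finRange K) C.M

end

/-- Packet MH-STM. -/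
theorem stm : STM_stmt := by
  intro D K A eA eN eW c0 w y m hP hF C u M hG hacc
  constructor
  · by_cases hb : m.bad u (m.sys.rd M u) = 0
    · exact Or.inr (good_step hP hF hG hacc hb)
    · left
      have hacc0 : accN (m.wq u) = 0 := by
        rw [hG.wq]
        have h1 : accN (num C.q) ≠ 1 := fun h => hacc ((accN_num _).1 h)
        have h2 := accN_le (num C.q)
        omega
      unfold Prm.fN
      rw [hacc0, ifz_zero, ifz_ne hb]
      unfold Prm.wq Prm.mk'
      rw [zero_add, Nat.mul_mod_right]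
  · intro ha hr hn hbox
    have hn' : (A.nx w y C).length ≤ m.S := hn
    refine good_step hP hF hG hacc ((bad_iff (w := w) (y := y) hP hF hG).2 ⟨ha, hr, hn, ?_⟩)
    have hnu : m.nu u (m.sys.rd M u) = num (A.nx w y C) := by
      rw [nu_eq hP hF hG ha hr, if_pos hn']
    rw [viol_iff]
    intro k hk
    have hD : 0 < D := by
      rcases Nat.eq_zero_or_pos D with h | h
      · rw [hP.h_D, h, mul_zero] at hk
        omega
      · exact h
    rw [hP.h_K, hP.h_D] at hk
    have hi : k / D < K := Nat.div_lt_of_lt_mul (by rw [mul_comm]; exact hk)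
    have hj : k % D < D := Nat.mod_lt _ hD
    have e0 : k / D * D + k % D = k := by
      rw [mul_comm]
      exact Nat.div_add_mod k D
    have h10 := hG.cq ⟨k / D, hi⟩ ⟨k % D, hj⟩
    have h11 := pl_mi (A.nx w y C) k
    rw [← hnu] at h11
    obtain ⟨hb1, hb2⟩ := hbox ⟨k / D, hi⟩ ⟨k % D, hj⟩
    have e : (A.step w y C).h ⟨k / D, hi⟩ ⟨k % D, hj⟩ =
        C.h ⟨k / D, hi⟩ ⟨k % D, hj⟩ + mv (A.nx w y C) (k / D * D + k % D) := rfl
    rw [e0] at e
    rw [e, ← h11] at hb1 hb2
    have h10' : ((m.cq u k : ℕ) : ℤ) = C.h ⟨k / D, hi⟩ ⟨k % D, hj⟩ + 2 ^ (m.κ - 1) := by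
      have h12 : ((m.cq u (k / D * D + k % D) : ℕ) : ℤ) =
        C.h ⟨k / D, hi⟩ ⟨k % D, hj⟩ + 2 ^ (m.κ - 1) := h10
      rwa [e0] at h12
    have h12 : (Prm.mi (m.nu u (m.sys.rd M u)) k : ℤ) ≤
        (m.cq u k : ℤ) + (Prm.pl (m.nu u (m.sys.rd M u)) k : ℤ) := by
      rw [h10']; linarith
    have h13 : Prm.mi (m.nu u (m.sys.rd M u)) k ≤
        m.cq u k + Prm.pl (m.nu u (m.sys.rd M u)) k := by exact_mod_cast h12
    refine ⟨h13, ?_⟩
    have h14 : ((m.cq u k + Prm.pl (m.nu u (m.sys.rd M u)) k -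
        Prm.mi (m.nu u (m.sys.rd M u)) k : ℕ) : ℤ) < ((2 ^ m.κ : ℕ) : ℤ) := by
      push_cast [Nat.cast_sub h13]
      rw [h10']
      linarith
    exact_mod_cast h14

end Pool.Agent.Helper83.MH
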