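import Pool.Agent.Helper81.MH.Goals

/-! # Project MH, packet IDLE -/

set_option autoImplicit false

namespace Pool.Agent.Helper83.MH

open Set Cardinal Filter
open Pool.Agent.Helper81.SB Pool.Agent.Helper81.MH

theorem le_NN (x : W → Set ℕ) (e : W → ℕ → W) (c : W) (t : ℕ → Bool) (κ n : ℕ)
    (h1 : n + 1 < κ) (h2 : ∀ j < n, (κ ∈ x (e c j) ↔ t j = true)) : n ≤ NN x e c t κ := by
  classical
  unfold NN
  rw [Nat.le_find_iff]
  rintro m hm (h | h)
  · omega
  · exact h (h2 m hm)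

theorem goal_IDLE : Goal_IDLE := by
  classical
  intro x e z hz c
  have hne : (cofinite ⊓ 𝓟 z).NeBot := cofinite_inf_principal_neBot_iff.mpr hz
  let 𝒰 := Ultrafilter.of (cofinite ⊓ 𝓟 z)
  have hU : (𝒰 : Filter ℕ) ≤ cofinite ⊓ 𝓟 z := Ultrafilter.of_le _
  let t : ℕ → Bool := fun j => decide (x (e c j) ∈ 𝒰)
  have hmem : ∀ n, {κ | κ ∈ z ∧ ∀ j < n, (κ ∈ x (e c j) ↔ t j = true)} ∈ 𝒰 := by
    intro n
    induction n with
    | zero =>
      have hz' : z ∈ 𝒰 := hU (mem_inf_of_right (mem_principal_self z))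
      exact mem_of_superset hz' fun κ hκ => ⟨hκ, fun j hj => absurd hj (Nat.not_lt_zero j)⟩
    | succ n ih =>
      have hn : {κ | κ ∈ x (e c n) ↔ t n = true} ∈ 𝒰 := by
        by_cases h : x (e c n) ∈ 𝒰
        · have ht : t n = true := decide_eq_true h
          refine mem_of_superset h fun κ hκ => ?_
          exact ⟨fun _ => ht, fun _ => hκ⟩
        · have ht : t n = false := decide_eq_false h
          have hc : (x (e c n))ᶜ ∈ 𝒰 := Ultrafilter.compl_mem_iff_notMem.mpr h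
          refine mem_of_superset hc fun κ hκ => ?_
          refine ⟨fun h1 => absurd h1 hκ, fun h1 => ?_⟩
          rw [ht] at h1
          cases h1
      refine mem_of_superset (inter_mem ih hn) ?_
      rintro κ ⟨⟨h1, h2⟩, h3⟩
      refine ⟨h1, fun j hj => ?_⟩
      rcases Nat.lt_succ_iff_lt_or_eq.mp hj with h | h
      · exact h2 j h
      · rw [h]
        exact h3
  have hinf : ∀ n, {κ | κ ∈ z ∧ ∀ j < n, (κ ∈ x (e c j) ↔ t j = true)}.Infinite := by
    intro n hfin
    have h1 : {κ | κ ∈ z ∧ ∀ j < n, (κ ∈ x (e c j) ↔ t j = true)}ᶜ ∈ 𝒰 :=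
      hU (mem_inf_of_left hfin.compl_mem_cofinite)
    exact Ultrafilter.compl_mem_iff_notMem.mp h1 (hmem n)
  by_contra hcon
  have hft : (nextS x e z c t true).Finite := by
    by_contra h
    exact hcon ⟨t, true, h⟩
  have hff : (nextS x e z c t false).Finite := by
    by_contra h
    exact hcon ⟨t, false, h⟩
  obtain ⟨N, hN⟩ := (hft.union hff).bddAbove
  obtain ⟨κ, hκ, hlt⟩ := (hinf (N + 1)).exists_gt (N + 2)
  have h1 : N + 1 ≤ NN x e c t κ := le_NN x e c t κ (N + 1) (by omega) hκ.2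
  have h2 : NN x e c t κ ∈ nextS x e z c t true ∪ nextS x e z c t false := by
    rcases hb : t (NN x e c t κ) with _ | _
    · right
      exact ⟨hb, κ, hκ.1, rfl⟩
    · left
      exact ⟨hb, κ, hκ.1, rfl⟩
  have h3 := hN h2
  omega

end Pool.Agent.Helper83.MH
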